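import Pool.Agent.helper28.EG.Spec

/-!
# Project p2x: LGB, the logarithmic area of an image
-/

set_option autoImplicit false

open Complex Metric Set Filter Topology MeasureTheory
open WP (it)

noncomputable section

namespace EG

theorem LGB_det (d : ℂ) :
    ((ContinuousLinearMap.toSpanSingleton ℂ d).restrictScalars ℝ : ℂ →L[ℝ] ℂ).det = ‖d‖ ^ 2 := by
  rw [ContinuousLinearMap.det]
  have h := LinearMap.det_restrictScalars (A := ℂ) (R := ℝ) (S := ℂ)
    (f := (ContinuousLinearMap.toSpanSingleton ℂ d : ℂ →ₗ[ℂ] ℂ))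
  have h2 : ((((ContinuousLinearMap.toSpanSingleton ℂ d).restrictScalars ℝ : ℂ →L[ℝ] ℂ)) :
      ℂ →ₗ[ℝ] ℂ) = (ContinuousLinearMap.toSpanSingleton ℂ d : ℂ →ₗ[ℂ] ℂ).restrictScalars ℝ := rfl
  rw [h2, h]
  simp [Algebra.norm_complex_apply, Complex.normSq_eq_norm_sq]

/-- **LGB** -/
theorem LGB : LGB_stmt := by
  intro ξ L p y c m β hL hexp hinj hβ hβc hm hmd
  have hder : ∀ w ∈ ball y c, HasDerivAt ξ (Complex.exp (L w) * deriv L w) w := by
    intro w hw
    have h1 : DifferentiableAt ℂ L w := hL.differentiableAt (isOpen_ball.mem_nhds hw)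
    have h2 : HasDerivAt (fun z => Complex.exp (L z) + p) (Complex.exp (L w) * deriv L w) w :=
      (h1.hasDerivAt.cexp).add_const p
    refine h2.congr_of_eventuallyEq ?_
    filter_upwards [isOpen_ball.mem_nhds hw] with z hz
    rw [hexp z hz]
    ring
  have hf : ∀ w ∈ β, HasFDerivWithinAt ξ
      ((ContinuousLinearMap.toSpanSingleton ℂ (Complex.exp (L w) * deriv L w)).restrictScalars ℝ : ℂ →L[ℝ] ℂ) β w := by
    intro w hw
    exact ((hder w (hβc hw)).hasFDerivAt.restrictScalars ℝ).hasFDerivWithinAt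
  have hi : InjOn ξ β := hinj.mono hβc
  refine ⟨measurable_image_of_fderivWithin hβ hf hi, ?_⟩
  rw [lintegral_image_eq_lintegral_abs_det_fderiv_mul volume hβ hf hi]
  calc ENNReal.ofReal (m ^ 2) * volume β = ∫⁻ _ in β, ENNReal.ofReal (m ^ 2) := by
        rw [setLIntegral_const]
    _ ≤ _ := by
        refine setLIntegral_mono' hβ (fun w hw => ?_)
        rw [LGB_det, abs_of_nonneg (by positivity), ← ENNReal.ofReal_mul (by positivity)]
        apply ENNReal.ofReal_le_ofReal
        have h1 := hmd w hw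
        have h2 : 0 < ‖Complex.exp (L w)‖ := norm_pos_iff.2 (Complex.exp_ne_zero _)
        rw [← hexp w (hβc hw), norm_mul, mul_pow, zpow_neg, mul_comm (‖Complex.exp (L w)‖ ^ 2), mul_assoc]
        have h3 : ‖Complex.exp (L w)‖ ^ 2 * (‖Complex.exp (L w)‖ ^ (2 : ℤ))⁻¹ = 1 := by
          have : ‖Complex.exp (L w)‖ ^ (2 : ℤ) = ‖Complex.exp (L w)‖ ^ 2 := by norm_cast
          rw [this]
          exact mul_inv_cancel₀ (by positivity)
        rw [h3, mul_one]
        exact pow_le_pow_left₀ hm h1 2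

end EG
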